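import Pool.Agent.Q289.OC.Chain
import Pool.Agent.Q224.OC.Heat

/-! # Project OC (helper289): the random walk on a finite connected graph mixes (helper154) -/

set_option autoImplicit false

namespace Pool.Agent.Q154.OC

open Finset Q289.OC Q289.OC.Ch Pool.Agent.Y998.ST Pool.Agent.Q224.OC

section

variable {S : Type} [Fintype S] [DecidableEq S]

/-- shifting the generator by a multiple of the identity -/
theorem E_shift (M : Matrix S S ℝ) (a s : ℝ) :
    (Real.exp (-(a * s)) • E (M + a • (1 : Matrix S S ℝ)) s : Matrix S S ℝ) = E M s := by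
  obtain ⟨N, hN⟩ : ∃ N : Matrix S S ℝ, N = M + a • (1 : Matrix S S ℝ) := ⟨_, rfl⟩
  rw [← hN]
  refine eq_E (Y := fun s => (Real.exp (-(a * s)) • E N s : Matrix S S ℝ)) ?_ ?_ s
  · intro s x y
    have h2 : HasDerivAt (fun u : ℝ => Real.exp (-(a * u))) (Real.exp (-(a * s)) * (-a)) s := by
      have h3 : HasDerivAt (fun u : ℝ => -(a * u)) (-(a * 1)) s :=
        ((hasDerivAt_id' s).const_mul a).fun_neg
      rw [mul_one] at h3
      exact h3.exp
    have h4 := h2.mul (E_deriv' N s x y)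
    simp only [Matrix.smul_apply, smul_eq_mul]
    refine h4.congr_deriv ?_
    rw [hN, Matrix.mul_add, Matrix.mul_smul, Matrix.mul_one, Matrix.smul_mul]
    simp only [Matrix.smul_apply, Matrix.add_apply, smul_eq_mul]
    ring
  · simp only [mul_zero, neg_zero, Real.exp_zero, one_smul, E_zero]

theorem E_nat (M : Matrix S S ℝ) (k : ℕ) : E M (k : ℝ) = E M 1 ^ k := by
  induction k with
  | zero => rw [Nat.cast_zero, E_zero, pow_zero]
  | succ k ih => rw [Nat.cast_add, Nat.cast_one, E_add, ih, pow_succ]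

/-- splitting off the uniform part -/
theorem pow_split {P R : Matrix S S ℝ} {δ n : ℝ} (hn : n = (Fintype.card S : ℝ)) (hn0 : 0 < n)
    (hrow : ∀ x, ∑ y, P x y = 1) (hcol : ∀ y, ∑ x, P x y = 1)
    (hR : ∀ x y, R x y = P x y - δ) (k : ℕ) :
    (∀ x, ∑ y, (R ^ k) x y = (1 - n * δ) ^ k) ∧
      ∀ x y, (P ^ k) x y = (R ^ k) x y + (1 - (1 - n * δ) ^ k) / n := by
  have hRrow : ∀ x, ∑ y, R x y = 1 - n * δ := by
    intro x
    simp only [hR, Finset.sum_sub_distrib, hrow, Finset.sum_const, Finset.card_univ, nsmul_eq_mul,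
      hn]
  induction k with
  | zero =>
    refine ⟨fun x => ?_, fun x y => ?_⟩
    · rw [pow_zero, pow_zero, Finset.sum_eq_single x]
      · exact Matrix.one_apply_eq x
      · intro y _ hy; exact Matrix.one_apply_ne hy.symm
      · intro h; exact absurd (mem_univ x) h
    · rw [pow_zero, pow_zero, pow_zero]; simp
  | succ k ih =>
    obtain ⟨ih1, ih2⟩ := ih
    refine ⟨fun x => ?_, fun x y => ?_⟩
    · rw [pow_succ]
      simp only [Matrix.mul_apply]
      rw [Finset.sum_comm]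
      simp only [← Finset.mul_sum, hRrow]
      rw [← Finset.sum_mul, ih1, pow_succ]
    · rw [pow_succ P, pow_succ R, Matrix.mul_apply, Matrix.mul_apply]
      have h1 : ∀ z, (P ^ k) x z * P z y = (R ^ k) x z * R z y + (R ^ k) x z * δ +
          (1 - (1 - n * δ) ^ k) / n * P z y := by
        intro z
        rw [ih2 x z, hR z y]
        ring
      rw [Finset.sum_congr rfl fun z _ => h1 z, Finset.sum_add_distrib, Finset.sum_add_distrib,
        ← Finset.sum_mul, ih1, ← Finset.mul_sum, hcol, pow_succ]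
      field_simp
      ring

end

variable {V : Type} [Fintype V] [DecidableEq V]

theorem gen_row (r : V → V → ℝ) (x : V) : ∑ y, generator r x y = 0 := by
  unfold generator
  simp only [Matrix.of_apply]
  rw [← Finset.add_sum_erase univ _ (mem_univ x), if_pos rfl]
  have h : ∀ y ∈ univ.erase x, (if x = y then -∑ z ∈ univ.erase x, r x z else r x y) = r x y :=
    fun y hy => if_neg (Finset.ne_of_mem_erase hy).symm
  rw [Finset.sum_congr rfl h]
  ring

theorem gen_symm {r : V → V → ℝ} (hs : ∀ x y, r x y = r y x) (x y : V) :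
    generator r x y = generator r y x := by
  unfold generator
  simp only [Matrix.of_apply]
  by_cases h : x = y
  · subst h; rfl
  · rw [if_neg h, if_neg (Ne.symm h), hs]

theorem t_FIN : FinStm := by
  intro V _ _ G _ hG
  obtain ⟨Q, hQ⟩ : ∃ Q : Matrix V V ℝ, Q = generator (rwRate (adjRate G)) := ⟨_, rfl⟩
  have hker : ∀ t, kernel (rwRate (adjRate G)) t = E Q t := fun t => by rw [hQ]; rfl
  have hsymm : ∀ x y, Q x y = Q y x := by
    rw [hQ]
    refine gen_symm fun x y => ?_
    unfold rwRate adjRate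
    by_cases h : G.Adj x y
    · rw [if_pos h, if_pos h.symm]
    · rw [if_neg h, if_neg fun h' => h h'.symm]
  have hrowQ : ∀ x, ∑ y, Q x y = 0 := by rw [hQ]; exact gen_row _
  have hadj : ∀ x y, G.Adj x y → Q x y = 1 := by
    intro x y h
    rw [hQ, generator, Matrix.of_apply, if_neg h.ne, rwRate, adjRate, if_pos h]
  have hoff : ∀ x y, x ≠ y → 0 ≤ Q x y := by
    intro x y h
    rw [hQ, generator, Matrix.of_apply, if_neg h, rwRate, adjRate]
    split_ifs <;> norm_num
  obtain ⟨a, ha⟩ : ∃ a : ℝ, a = ∑ x, |Q x x| := ⟨_, rfl⟩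
  have ha' : ∀ x, -a ≤ Q x x := by
    intro x
    have h1 : |Q x x| ≤ a := by
      rw [ha]
      exact Finset.single_le_sum (f := fun x => |Q x x|) (fun y _ => abs_nonneg _) (mem_univ x)
    have h2 := neg_abs_le (Q x x)
    linarith
  obtain ⟨N, hN⟩ : ∃ N : Matrix V V ℝ, N = Q + a • (1 : Matrix V V ℝ) := ⟨_, rfl⟩
  have hN0 : ∀ x y, 0 ≤ N x y := by
    intro x y
    rw [hN, Matrix.add_apply, Matrix.smul_apply, smul_eq_mul]
    by_cases h : x = y
    · subst h
      rw [Matrix.one_apply_eq]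
      linarith [ha' x]
    · rw [Matrix.one_apply_ne h, mul_zero, add_zero]
      exact hoff x y h
  have hNadj : ∀ x y, G.Adj x y → N x y = 1 := by
    intro x y h
    rw [hN, Matrix.add_apply, Matrix.smul_apply, smul_eq_mul, Matrix.one_apply_ne h.ne, mul_zero,
      add_zero, hadj x y h]
  have hwalk : ∀ x y, ∀ w : G.Walk x y, 0 < (N ^ w.length) x y := by
    intro x y w
    induction w with
    | nil => rw [SimpleGraph.Walk.length_nil, pow_zero, Matrix.one_apply_eq]; norm_num
    | @cons u v w h p ih =>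
      rw [SimpleGraph.Walk.length_cons, pow_succ', Matrix.mul_apply]
      refine Finset.sum_pos' (fun z _ => mul_nonneg (hN0 _ _) (pow_nonneg' hN0 _ _ _))
        ⟨v, mem_univ v, ?_⟩
      rw [hNadj u v h, one_mul]
      exact ih
  have hpos : ∀ x y, 0 < E Q 1 x y := by
    intro x y
    obtain ⟨w⟩ := hG.preconnected x y
    rw [← E_shift Q a 1, ← hN, Matrix.smul_apply, smul_eq_mul]
    refine mul_pos (Real.exp_pos _) ?_
    have h1 := E_hasSum N 1 x y
    refine lt_of_lt_of_le ?_ (le_hasSum h1 w.length fun m _ =>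
      mul_nonneg (by positivity) (pow_nonneg' hN0 m x y))
    exact mul_pos (by positivity) (hwalk x y w)
  have : Nonempty V := hG.nonempty
  obtain ⟨⟨x0, y0⟩, -, hmin⟩ := Finset.exists_min_image (univ : Finset (V × V))
    (fun p => E Q 1 p.1 p.2) ⟨(Classical.arbitrary V, Classical.arbitrary V), mem_univ _⟩
  obtain ⟨δ, hδ⟩ : ∃ δ : ℝ, δ = E Q 1 x0 y0 := ⟨_, rfl⟩
  have hδ0 : 0 < δ := by rw [hδ]; exact hpos x0 y0
  have hδle : ∀ x y, δ ≤ E Q 1 x y := fun x y => by rw [hδ]; exact hmin (x, y) (mem_univ _)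
  have hrow : ∀ x, ∑ y, E Q 1 x y = 1 := E_row hrowQ 1
  have hcol : ∀ y, ∑ x, E Q 1 x y = 1 := by
    intro y
    have h1 := hrow y
    rwa [Finset.sum_congr rfl fun x _ => E_symm hsymm 1 y x] at h1
  have hn0 : (0 : ℝ) < Fintype.card V := by exact_mod_cast Fintype.card_pos
  obtain ⟨n, hn⟩ : ∃ n : ℝ, n = (Fintype.card V : ℝ) := ⟨_, rfl⟩
  rw [← hn] at hn0
  obtain ⟨R, hR⟩ : ∃ R : Matrix V V ℝ, R = Matrix.of fun x y => E Q 1 x y - δ := ⟨_, rfl⟩
  have hR' : ∀ x y, R x y = E Q 1 x y - δ := fun x y => by rw [hR, Matrix.of_apply]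
  have hR0 : ∀ x y, 0 ≤ R x y := fun x y => by rw [hR']; linarith [hδle x y]
  have hq0 : 0 ≤ 1 - n * δ := by
    have h1 : ∑ _y : V, δ ≤ ∑ y, E Q 1 x0 y := Finset.sum_le_sum fun y _ => hδle x0 y
    rw [hrow, Finset.sum_const, Finset.card_univ, nsmul_eq_mul, ← hn] at h1
    linarith
  have hq1 : 1 - n * δ < 1 := by
    have := mul_pos hn0 hδ0
    linarith
  obtain ⟨k, hk⟩ := exists_pow_lt_of_lt_one (show (0 : ℝ) < 1 / 4 by norm_num) hq1
  refine ⟨(k : ℝ), Nat.cast_nonneg k, fun x => ?_⟩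
  rw [tv, hker, E_nat, ← hn]
  obtain ⟨h1, h2⟩ := pow_split hn hn0 hrow hcol hR' k
  have h3 : ∀ y, |(E Q 1 ^ k) x y - 1 / n| ≤ (R ^ k) x y + (1 - n * δ) ^ k / n := by
    intro y
    rw [h2 x y]
    have h4 : (R ^ k) x y + (1 - (1 - n * δ) ^ k) / n - 1 / n =
        (R ^ k) x y - (1 - n * δ) ^ k / n := by ring
    rw [h4]
    have h5 : 0 ≤ (R ^ k) x y := pow_nonneg' hR0 k x y
    have h6 : 0 ≤ (1 - n * δ) ^ k / n := div_nonneg (pow_nonneg hq0 k) hn0.le
    rw [abs_le]
    constructor <;> linarith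
  have h4 := Finset.sum_le_sum fun y (_ : y ∈ (univ : Finset V)) => h3 y
  rw [Finset.sum_add_distrib, h1, Finset.sum_const, Finset.card_univ, nsmul_eq_mul, ← hn,
    mul_div_cancel₀ _ hn0.ne'] at h4
  linarith

end Pool.Agent.Q154.OC
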